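import Pool.Agent.Q60.RB.Conn2

/-!
# The de Rham-Betti conjecture for a motive is decided by the classes of degree four, the
determinants, semisimplicity and connectedness

Let `M` be a de Rham-Betti object over the algebraically closed subfield `K` of the complex numbers
(for example the realisation of an André motive over the field of algebraic numbers), `P` its period
matrix (the comparison isomorphism in a `K`-basis of `M_dR` and a `ℚ`-basis of `M_B`), `C` a set of
de Rham-Betti classes on the tensor constructions of `M` (the motivated classes, or the algebraic
classes), and `G` the group of the linear automorphisms of `M_B ⊗ ℂ` fixing them.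

(1) If `G` is connected, `M` is a semisimple de Rham-Betti object, all de Rham-Betti classes on
`(M ⊗ M^∨) ⊗ (M ⊗ M^∨)^∨` are in `C`, and the Lie algebras of `G` and of the de Rham-Betti group have
the same traces on the centre of `End(M)`, then `Ω^dRB_M` is the torsor of `C`.

(2) The converse, if `C` is the set of the motivated classes (or has the formal properties
`IsMotivic` of this set).

(3) The condition on the traces follows from the other three conditions, if the centre of `G`
consists of scalars up to a finite group, and `det P` is transcendental if `G` contains the
homotheties.
-/

namespace Pool.Agent.Results.MP_470b79_ag.DegreeFourDecides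

open Pool.Agent.Q60.RB

theorem result {κ : Type} [Fintype κ] [DecidableEq κ] (K : Type) [Field K] [IsAlgClosed K]
    [Algebra K ℂ] (P : GL κ ℂ) (C : ∀ t : Con, Set (Ix κ t → ℚ)) (hC : AreDRB K P C) :
    (IsConnected (group C) → IsSemisimple K P → FullInDegreeFour K P C → SameTraces K P C →
      torsorDRB K P = torsorOf K P C) ∧
    (IsMotivic C → torsorDRB K P = torsorOf K P C →
      IsConnected (group C) ∧ IsSemisimple K P ∧ FullInDegreeFour K P C ∧ SameTraces K P C) ∧
    (CentreIsScalar (group C) →
      (ContainsScalars (group C) → Transcendental K (P : Matrix κ κ ℂ).det) →
      IsConnected (group C) → IsSemisimple K P → FullInDegreeFour K P C → SameTraces K P C) :=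
  ⟨fun hG => (main_any hC hG).1,
    fun hM heq => ⟨conn_of_torsor hC heq, (main_any hC (conn_of_torsor hC heq)).2.1 hM heq⟩,
    fun hZ hdet hG => (main_any hC hG).2.2 hZ hdet⟩

end Pool.Agent.Results.MP_470b79_ag.DegreeFourDecides
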