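import Pool.Agent.Q50.SR.CSpin

namespace Pool.Agent.Results.MP_470b79_ag.RealMultiplicationTorsors

open Pool.Agent.Q50.LR Pool.Agent.Q50.SR

/-- Let the indices `1, …, n` be coloured, each colour which occurs being the colour of at least `3`
indices and not of exactly `5`. Let `γ` be gamma matrices over the algebraically closed field `K`
which satisfy the Clifford relations inside a colour and commute for different colours, acting
irreducibly. Let `x` be a complex matrix which induces on the vectors a matrix `R` respecting the
colours, and the entries of which satisfy exactly the linear relations over `K` which hold on the even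
algebra (the period matrix of the Kuga-Satake variety of a K3 surface with totally real
multiplication, by the theorem of Wüstholz). Then every `K`-torsor through a multiple of `R` (the
period matrix of the transcendental part of the K3 surface, with any Tate twist) contains a torsor of
the product of the special orthogonal groups of the colours, and every `K`-torsor through `x` contains
a torsor of the product of their spin groups. The groups contain the homotheties if the multiple or
the determinant is transcendental. -/
theorem result (K : Type) [Field K] [Algebra K ℂ] [IsAlgClosed K] {n N e : ℕ} (hN : N ≠ 0)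
    (γ : Fin n → Matrix (Fin N) (Fin N) K) (c : Fin n → Fin e) (hγ : ColouredGamma γ c)
    (h3 : ∀ i, 3 ≤ classSize c i) (h5 : ∀ i, classSize c i ≠ 5) (x : GL (Fin N) ℂ)
    (R : Matrix (Fin n) (Fin n) ℂ) (hR : Acts γ x R) (hB : Respects c R)
    (hx : RelationsOfEvenAlgebra γ c x) :
    (∀ (H : Subgroup (GL (Fin n) ℂ)) (P : GL (Fin n) ℂ) (θ : ℂ), IsAlgebraicGroup K H →
      (P : Matrix (Fin n) (Fin n) ℂ) = θ • R → OnTorsor K H P →
      ContainsColouredSO c H ∧ (Transcendental K θ → ContainsScalars H)) ∧
    (∀ H : Subgroup (GL (Fin N) ℂ), IsAlgebraicGroup K H → OnTorsor K H x →
      ContainsColouredSpin γ c H ∧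
      (Transcendental K (x : Matrix (Fin N) (Fin N) ℂ).det → ContainsScalars H)) := by
  have : CharZero K := (algebraMap K ℂ).charZero
  exact ⟨fun H P θ hH hP hPH => col_T hN h3 h5 hγ hR hB hx hH hP hPH,
    fun H hH hxH => col_S hN h3 h5 hγ hR hB hx hH hxH⟩

end Pool.Agent.Results.MP_470b79_ag.RealMultiplicationTorsors
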