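import Pool.Agent.Q54.TG.Sum

/-!
# The de Rham-Betti conjecture and smooth affine cubic hypersurfaces with semisimple homology

Let `q_0, …, q_r` be polynomials of degree at most two in `M` variables over the field `K`. The
cubic hypersurface `E_q : ∑ λ_j q_j(x) = 1` in the affine space of dimension `M + r + 1`
(`hypO q 1`) is smooth over `K`. We show that the assertion `Ω^dRB_M = Ω^And_M` of the question
holds for all André motives `M` over `K` if and only if it holds for the homology of those
hypersurfaces `E_q` whose homology is semisimple, that is an André motive.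

The motives of the homology of arbitrary varieties are Nori motives; the André motives are the
semisimple Nori motives.
-/

namespace Pool.Agent.Results.MP_470b79_ag.SemisimpleCubics

universe u v w

open Q54.CU Q54.TG CategoryTheory Limits MonoidalCategory AlgebraicGeometry

variable {k : Type u} [Field k] {𝓜 : Type w} [Category.{v} 𝓜] [Abelian 𝓜] [MonoidalCategory 𝓜]

/-- The homology of `X` consists of André motives. -/
def HasAndreHomology (Andre : 𝓜 → Prop) (h : ℤ → SchO k → 𝓜) (X : SchO k) : Prop :=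
  ∀ i, Andre (h i X)

/-- The homology of `X` has direct summands `ℚ(0)` and `ℚ(1)`. For a smooth projective variety `X`
of positive dimension they are contained in `H_0(X)` and in `H_2(X)`. -/
def HasTateSummands (h : ℤ → SchO k → 𝓜) (L : 𝓜) (X : SchO k) : Prop :=
  ∃ a b : ℤ, IsRetract (𝟙_ 𝓜) (h a X) ∧ IsRetract L (h b X)

/-- The André motives are a Tannakian subcategory, and every André motive is contained in the
category generated by the homology of a variety `X` (smooth projective, of positive dimension) with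
these properties. -/
structure IsAndre (Andre : 𝓜 → Prop) (h : ℤ → SchO k → 𝓜) (L : 𝓜) : Prop where
  tannakian : IsTann Andre
  generated : ∀ A, Andre A → ∃ X : SchO k, IsVar X ∧ HasAffineTorsor X ∧ HasTateSummands h L X ∧
    HasAndreHomology Andre h X ∧ tann (homs h X) A

/-- The assertion `P C` (the torsors `Ω^dRB` and `Ω^And` of the Tannakian category `C` of André motives
are equal) for `C` implies it for all smaller categories. -/
def IsHereditary (P : (𝓜 → Prop) → Prop) : Prop :=
  ∀ C C' : 𝓜 → Prop, IsTann C → IsTann C' → (∀ A, C' A → C A) → P C → P C'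

/-- The de Rham-Betti conjecture for all André motives. -/
def ForAndre (Andre : 𝓜 → Prop) (P : (𝓜 → Prop) → Prop) : Prop :=
  ∀ A, Andre A → P (tann {A})

/-- The de Rham-Betti conjecture for the hypersurfaces `E_q` whose homology consists of André
motives. -/
def ForCubics (Andre : 𝓜 → Prop) (h : ℤ → SchO k → 𝓜) (P : (𝓜 → Prop) → Prop) : Prop :=
  ∀ (M r : ℕ) (q : Fin (r + 1) → MvPolynomial (Fin M) k), (∀ j, (q j).totalDegree ≤ 2) →
    HasAndreHomology Andre h (hypO q 1) → P (tann (homs h (hypO q 1)))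

/-- **The de Rham-Betti conjecture and smooth affine cubic hypersurfaces.** -/
theorem result [MonoidalPreadditive 𝓜] (h : ℤ → SchO k → 𝓜) (L L' : 𝓜) (hL : L ⊗ L' ≅ 𝟙_ 𝓜)
    (hh : IsMotHomology h L) (hneg : ∀ (i : ℤ) (X : SchO k), IsVar X → i < 0 → IsZero (h i X))
    (Andre : 𝓜 → Prop) (hA : IsAndre Andre h L) :
    (∀ A : 𝓜, Andre A → ∃ (M r : ℕ) (q : Fin (r + 1) → MvPolynomial (Fin M) k),
      (∀ j, (q j).totalDegree ≤ 2) ∧ HasAndreHomology Andre h (hypO q 1) ∧
        tann (homs h (hypO q 1)) A) ∧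
    (∀ X : SchO k, IsVar X → HasAffineTorsor X → HasTateSummands h L X →
      ∃ (M r : ℕ) (q : Fin (r + 1) → MvPolynomial (Fin M) k), (∀ j, (q j).totalDegree ≤ 2) ∧
        tann (homs h (hypO q 1)) = tann (homs h X)) ∧
    (∀ P : (𝓜 → Prop) → Prop, IsHereditary P → (ForAndre Andre P ↔ ForCubics Andre h P)) ∧
    ∀ (M r : ℕ) (q : Fin (r + 1) → MvPolynomial (Fin M) k), (∀ j, (q j).totalDegree ≤ 2) →
      IsVar (hypO q 1) ∧ Smooth (hypO q 1).hom ∧ IsAffine (hypO q 1).left ∧
        (hypPoly q 1).totalDegree ≤ 3 := by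
  have h2 : ∀ X : SchO k, IsVar X → HasAffineTorsor X → HasTateSummands h L X →
      ∃ (M r : ℕ) (q : Fin (r + 1) → MvPolynomial (Fin M) k), (∀ j, (q j).totalDegree ≤ 2) ∧
        tann (homs h (hypO q 1)) = tann (homs h X) := by
    rintro X hX hT ⟨a, b, h0, h1⟩
    obtain ⟨s, M, r, q, hq, ⟨S⟩⟩ := exists_setup hh hX hT
    exact ⟨M, r, q, hq, tann_eq hh hL S h0 h1⟩
  have h1 : ∀ A : 𝓜, Andre A → ∃ (M r : ℕ) (q : Fin (r + 1) → MvPolynomial (Fin M) k),
      (∀ j, (q j).totalDegree ≤ 2) ∧ HasAndreHomology Andre h (hypO q 1) ∧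
        tann (homs h (hypO q 1)) A := by
    intro A hAA
    obtain ⟨X, hX, hT, hS, hH, hXA⟩ := hA.generated A hAA
    obtain ⟨M, r, q, hq, h3⟩ := h2 X hX hT hS
    refine ⟨M, r, q, hq, fun i => ?_, by rw [h3]; exact hXA⟩
    have h4 : tann (homs h X) (h i (hypO q 1)) := by
      rw [← h3]
      exact tann_mem ⟨i, rfl⟩
    exact h4 Andre hA.tannakian (by rintro _ ⟨j, rfl⟩; exact hH j)
  refine ⟨h1, h2, ?_, ?_⟩
  · intro P hP
    constructor
    · intro h3 M r q _ hH
      obtain ⟨N, hN⟩ := hh.bounded (hypO q 1) (isVar_hypO q 1)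
      have h4 := tann_sumTo h (hypO q 1) N (fun i hi => hneg i _ (isVar_hypO q 1) hi) hN
      rw [← h4]
      exact h3 _ (sumTo_mem _ hA.tannakian (fun n => hH n) N)
    · intro h3 A hAA
      obtain ⟨M, r, q, hq, hH, h4⟩ := h1 A hAA
      refine hP _ _ (isTann_tann _) (isTann_tann _) (fun B hB => ?_) (h3 M r q hq hH)
      exact hB _ (isTann_tann _) (by rintro _ rfl; exact h4)
  · intro M r q hq
    exact ⟨isVar_hypO q 1, smooth_hyp q, (inferInstance : IsAffine (HypSch q (1 : k))),
      totalDegree_hypPoly q 1 hq⟩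

end Pool.Agent.Results.MP_470b79_ag.SemisimpleCubics
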