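import Pool.Agent.Q138.PS.VE
import Pool.Agent.Q138.PS.VG
import Pool.Agent.Results.MP_470b79_ag.MonodromyTorsors

/-!
# De Rham-Betti torsors of tuples of fibres at `z = 1 / t_i`, `t_i` close to `α P(n)`

Let `q ≥ 2`. We consider countably many systems `f Z' = Z A` as in the starting file `MonodromyTorsors` (for example the
Gauss-Manin systems of families of smooth projective varieties over `ℚ(z)`) and a countable set `𝒞` of complex numbers. Outside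
a set of real numbers of Hausdorff dimension at most `q / (q + 1 / (q 2 ^ (q - 1)))` (that is `8 / 9` for `q = 2`) every `α > 0`
has the following property. There is `η > 0` such that for ALL the systems, with numbers `x₀`, `G` depending only on the system,
ALL number fields `K ⊂ ℂ`, ALL matrices `C₀` (the periods of a de Rham-Betti object `M_0`), ALL invertible matrices `Ω` with
entries in `𝒞` and ALL `k` there is `κ > 0` such that for all large `N` and ALL integral polynomials `P` of degree `q` with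
positive leading coefficient and coefficients of size at most `N ^ η`: for all but `N ^ (1 - κ)` of the `n ≤ N`, for ALL
`k`-tuples of integers `m_i` with `|m_i - ⌊α P(n)⌋| ≤ N ^ κ` and `|m_i - m_j| ≥ G` for `i ≠ j` the conclusions `Full` of the
starting file hold for `M_0 ⊕ M_(m_1) ⊕ … ⊕ M_(m_k)`, `M_m` the fibre at `z = 1 / m` (the torsors over `K` containing the period
matrix are stable under the product of the connected monodromy groups, the de Rham-Betti classes on all tensor spaces are fixed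
by it, and the Lie algebra of the torsor is normalised by the product of the Galois groups).
-/

set_option autoImplicit false

namespace Pool.Agent.Results.MP_470b79_ag.TorsorTuplesAlongRealMultiples

open Finset Filter Topology
open Pool.Agent.Q138.PS
open MonodromyTorsors (GCond Full)
open PowerSeries

/-- the data of the starting file: a system `f Z' = Z A` over `ℚ(z)`, regular at `z = 0`, with a fundamental matrix `Z` such that
the entries of `Z` and of the inverse `W` are G-functions -/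
structure GSystem where
  /-- the rank -/
  n : ℕ
  /-- the denominator -/
  f : Polynomial ℚ
  /-- the system -/
  A : Matrix (Fin n) (Fin n) (Polynomial ℚ)
  /-- the fundamental matrix -/
  Z : Matrix (Fin n) (Fin n) ℚ⟦X⟧
  /-- its inverse -/
  W : Matrix (Fin n) (Fin n) ℚ⟦X⟧
  hf : f.coeff 0 ≠ 0
  hode : ∀ i j, (f : ℚ⟦X⟧) * PowerSeries.derivative ℚ (Z i j) = ∑ k, Z i k * (A k j : ℚ⟦X⟧)
  hW : W * Z = 1
  hGZ : ∀ i j, GCond (Z i j)
  hGW : ∀ i j, GCond (W i j)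

/-- the conclusions for all `k`-tuples of integers in `S` with differences at least `G` -/
def AllFull (S : GSystem) (K : Subfield ℂ) {r : ℕ} (C₀ : Matrix (Fin r) (Fin r) ℂ) (Ω : Matrix (Fin S.n) (Fin S.n) ℂ)
    (x₀ G k : ℕ) (T : Set ℕ) : Prop :=
  ∀ m : Fin k → ℕ, (∀ i j, i ≠ j → (G : ℤ) ≤ |(m i : ℤ) - m j|) → (∀ i, m i ∈ T) → Full K C₀ Ω S.Z x₀ m

theorem windows (S : GSystem) : ∃ x₀ G : ℕ, ∀ (K : Subfield ℂ), FiniteDimensional ℚ K → ∀ (r : ℕ)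
    (C₀ : Matrix (Fin r) (Fin r) ℂ) (Ω : Matrix (Fin S.n) (Fin S.n) ℂ), IsUnit Ω → ∀ k : ℕ,
    ∃ B : ℕ, ∃ c : ℝ, 0 < c ∧ ∃ y₀ : ℕ, ∀ x H : ℕ, y₀ ≤ x → (H : ℝ) ≤ (x : ℝ) ^ c →
      ∃ T : Finset ℕ, T.card ≤ B ∧ AllFull S K C₀ Ω x₀ G k (Set.Icc x (x + H) \ T) := by
  classical
  obtain ⟨x₀, G, h⟩ := MonodromyTorsors.result S.n S.f S.A S.Z S.W S.hf S.hode S.hW S.hGZ S.hGW
  refine ⟨x₀, G, fun K hK r C₀ Ω hΩ k => ?_⟩
  obtain ⟨⟨M, c, hc, h1⟩, -⟩ := h k (Module.finrank ℚ K) r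
  refine ⟨M, c, hc, 1, fun x H hx hH => ?_⟩
  obtain ⟨T, hT, h2⟩ := h1 Ω hΩ K hK le_rfl C₀ x hx
  refine ⟨T, hT, fun m hm hmT => h2 m hm fun i => ?_⟩
  obtain ⟨⟨h3, h4⟩, h5⟩ := hmT i
  refine ⟨h3, ?_, h5⟩
  have : (m i : ℝ) ≤ x + H := by exact_mod_cast h4
  linarith

/-- **Theorem.** -/
theorem result (q : ℕ) (hq : 2 ≤ q) {ι : Type} [Countable ι] (S : ι → GSystem) (𝒞 : Set ℂ) (h𝒞 : 𝒞.Countable) :
    ∃ x₀ G : ι → ℕ,
    ∃ E : Set ℝ, dimH E ≤ ENNReal.ofReal (q / (q + 1 / ((q : ℝ) * 2 ^ (q - 1)))) ∧ ∀ α : ℝ, 0 < α → α ∉ E →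
      ∃ η : ℝ, 0 < η ∧ ∀ (i : ι) (K : Subfield ℂ), FiniteDimensional ℚ K →
      ∀ (r : ℕ) (C₀ : Matrix (Fin r) (Fin r) ℂ), (∀ a b, C₀ a b ∈ 𝒞) →
      ∀ Ω : Matrix (Fin (S i).n) (Fin (S i).n) ℂ, IsUnit Ω → (∀ a b, Ω a b ∈ 𝒞) → ∀ k : ℕ,
      ∃ κ : ℝ, 0 < κ ∧ ∀ᶠ N : ℕ in atTop, ∀ P : Polynomial ℤ, P.natDegree = q → 0 < P.leadingCoeff →
        (∀ j, |((P.coeff j : ℤ) : ℝ)| ≤ (N : ℝ) ^ η) →
        (badG (AllFull (S i) K C₀ Ω (x₀ i) (G i) k) ⌊(N : ℝ) ^ κ⌋₊ α P N : ℝ) ≤ (N : ℝ) ^ (1 - κ) := by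
  classical
  have hC : Countable {x : ℂ // x ∈ 𝒞} := h𝒞.to_subtype
  have hK := countS
  choose x₀ G h using fun i => windows (S i)
  refine ⟨x₀, G, ?_⟩
  obtain ⟨E, hE, hg⟩ := win_tuples (ι := {K : Subfield ℂ // FiniteDimensional ℚ K} ×
    (Σ r : ℕ, Fin r → Fin r → {x : ℂ // x ∈ 𝒞}) × (Σ i : ι, Fin (S i).n → Fin (S i).n → {x : ℂ // x ∈ 𝒞}) × ℕ) q hq
    (fun j => AllFull (S j.2.2.1.1) j.1.1 (Matrix.of fun a b => (j.2.1.2 a b : ℂ)) (Matrix.of fun a b => (j.2.2.1.2 a b : ℂ))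
      (x₀ j.2.2.1.1) (G j.2.2.1.1) j.2.2.2)
    (fun j T T' hT h m hm hmT => h m hm fun i => hT (hmT i))
  refine ⟨E, hE, fun α hα hαE => ?_⟩
  obtain ⟨η, hη, h1⟩ := hg α hα hαE
  refine ⟨η, hη, fun i K hKf r C₀ hC₀ Ω hΩ hΩC k => ?_⟩
  obtain ⟨B, c, hc, h2⟩ := h i K hKf r C₀ Ω hΩ k
  exact h1 (⟨K, hKf⟩, ⟨r, fun a b => ⟨C₀ a b, hC₀ a b⟩⟩, ⟨i, fun a b => ⟨Ω a b, hΩC a b⟩⟩, k) B c hc h2

end Pool.Agent.Results.MP_470b79_ag.TorsorTuplesAlongRealMultiples
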